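import Mathlib

/-!
# Two symmetric conference matrices of order 26

`S1` is the Seidel matrix (with an isolated vertex added) of the Latin square graph of a Latin
square of order 5 not isotopic to the cyclic one; `S2` is built from two circulant blocks: the
Paley matrix of order 13 and the difference set `{0,1,4,6}` modulo 13.
The off-diagonal signs are stored in the bits of natural numbers.
-/

namespace Pool.Agent.Work.MP_dc1a88_an

/-- sign read off bit `j` of `n` -/
def sgnBit (n j : ℕ) : ℤ := if n.testBit j then -1 else 1

def rows1 : List ℕ := [5809278, 10700925, 6690459, 25471383, 18436879, 9619395, 6892451, 21142380,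
  9777912, 19678708, 3471909, 19002570, 5467540, 13393225, 25837106, 18812073, 4102482, 13488294,
  11249420, 21488209, 31561009, 30740038, 28979397, 24535338, 16304792, 0]

def rows2 : List ℕ := [66423268, 65745864, 64382865, 61665058, 56229444, 45350025, 23591187,
  47174183, 27239503, 54479006, 41857340, 16605817, 33211634, 46353790, 25606908, 51205625,
  35302387, 3504102, 7000013, 14000026, 27991861, 55975531, 44842199, 22575535, 45142879, 23176895]

/-- thirty sign vectors -/
def xs1 : List ℕ := [63741302, 61550005, 61206773, 61072853, 57497003, 56878460, 54417773,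
  54416843, 54408442, 48057596, 48025046, 41740726, 25760876, 25728326, 21317925, 21316995,
  21308594, 19444006, 18237765, 18229364, 18228434, 11278513, 11144593, 10801361, 10044620,
  6950200, 6606968, 6473048, 3760300, 3727750]

/-- `5 I + S` -/
def G (rows : List ℕ) (i j : Fin 26) : ℤ := if i = j then 5 else sgnBit (rows.getD i 0) j

/-- `5 I - S` -/
def M2 (i j : Fin 26) : ℤ := if i = j then 5 else - sgnBit (rows2.getD i 0) j

set_option maxRecDepth 100000

lemma G1_symm : ∀ i j, G rows1 i j = G rows1 j i := by decide +kernel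
lemma G2_symm : ∀ i j, G rows2 i j = G rows2 j i := by decide +kernel
lemma G1_diag : ∀ i, G rows1 i i = 5 := by decide +kernel
lemma G2_diag : ∀ i, G rows2 i i = 5 := by decide +kernel
lemma G1_off : ∀ i j, i ≠ j → G rows1 i j = 1 ∨ G rows1 i j = -1 := by decide +kernel
lemma G2_off : ∀ i j, i ≠ j → G rows2 i j = 1 ∨ G rows2 i j = -1 := by decide +kernel
lemma G1_sq : ∀ i j, ∑ k, G rows1 i k * G rows1 k j = 10 * G rows1 i j := by decide +kernel
lemma G2_sq : ∀ i j, ∑ k, G rows2 i k * G rows2 k j = 10 * G rows2 i j := by decide +kernel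

lemma G1_cut : ∀ i j : Fin 26, ∑ k : Fin 30, sgnBit (xs1.getD k 0) i * sgnBit (xs1.getD k 0) j =
    6 * G rows1 i j := by decide +kernel

/-- the vector `x0 = (-1, …, -1, 1, …, 1)` -/
def x0 (i : Fin 26) : ℤ := if i.val < 13 then -1 else 1

lemma x0_G : ∑ i, ∑ j, x0 i * G rows2 i j * x0 j = 260 := by decide +kernel

lemma M2_G : ∀ i k, ∑ j, M2 i j * G rows2 j k = 0 := by decide +kernel

/-- combination of the rows of `M2` -/
def W (k : Fin 13) (i : Fin 26) : ℤ :=
  if i.val < 13 then (if (k.val + 13 - i.val) % 13 ∈ [0, 1, 4, 6] then 3 else -2) else 0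

def cs : List ℤ := [2, 0, 0, -4, -2, 0, -2, 6, -4, 2, -4, -2, 2]

/-- the resulting rows -/
def R (k : Fin 13) (j : Fin 26) : ℤ :=
  if j.val < 13 then 5 * cs.getD ((j.val + 13 - k.val) % 13) 0
  else if j.val = 13 + k.val then -30 else 0

lemma W_M2 : ∀ k j, ∑ i, W k i * M2 i j = R k j := by decide +kernel

/-- the linear form `T_k` on sign vectors of length 13 encoded in the bits of `n` -/
def T (n k : ℕ) : ℤ :=
  (List.range 13).foldl (fun s j => s + cs.getD ((j + 13 - k) % 13) 0 * sgnBit n j) 0

def sig (n : ℕ) : ℤ := (List.range 13).foldl (fun s j => s + sgnBit n j) 0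

/-- `n` is a small solution -/
def bad (n : ℕ) : Bool :=
  (decide (sig n ≤ 3) && decide (-3 ≤ sig n)) &&
    (List.range 13).all (fun k => decide (T n k = 6) || decide (T n k = -6))

lemma no_bad : ((List.range 64).all fun a => (List.range 128).all fun b =>
    !(bad (128 * a + b))) = true := by decide +kernel

end Pool.Agent.Work.MP_dc1a88_an
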