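import Pool.Agent.Work.MP_dc1a88_an.Defs

/-!
# From a matrix with `X² = c X` to a tight frame
-/

open Matrix Finset

namespace Pool.Agent.Work.MP_dc1a88_an

theorem exists_frame {N r : ℕ} (X : Matrix (Fin N) (Fin N) ℝ) (hX : X.IsHermitian) (c : ℝ)
    (hc : 0 < c) (hsq : X * X = c • X) (htr : X.trace = c * r) :
    ∃ v : Fin N → Fin r → ℝ, (∀ i j, v i ⬝ᵥ v j = X i j) ∧
      ∑ i, vecMulVec (v i) (v i) = c • (1 : Matrix (Fin r) (Fin r) ℝ) := by
  classical
  set U : Matrix (Fin N) (Fin N) ℝ := (hX.eigenvectorUnitary : Matrix (Fin N) (Fin N) ℝ) with hU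
  set l : Fin N → ℝ := hX.eigenvalues with hl
  have hUU : Uᵀ * U = 1 := by
    have := Unitary.coe_star_mul_self hX.eigenvectorUnitary
    rwa [star_eq_conjTranspose, conjTranspose_eq_transpose_of_trivial] at this
  have hspec : X = U * diagonal l * Uᵀ := by
    have := hX.spectral_theorem
    rw [Unitary.conjStarAlgAut_apply, star_eq_conjTranspose,
      conjTranspose_eq_transpose_of_trivial] at this
    simpa using! this
  -- eigenvalues
  have hdiag : diagonal l = Uᵀ * X * U := by
    rw [hspec]
    calc diagonal l = (Uᵀ * U) * diagonal l * (Uᵀ * U) := by rw [hUU, one_mul, mul_one]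
      _ = _ := by simp only [Matrix.mul_assoc]
  have hUU' : U * Uᵀ = 1 := mul_eq_one_comm.1 hUU
  have hll : ∀ j, l j * l j = c * l j := by
    intro j
    have h1 : diagonal l * diagonal l = c • diagonal l := by
      rw [hdiag]
      calc Uᵀ * X * U * (Uᵀ * X * U) = Uᵀ * X * (U * Uᵀ) * X * U := by
            simp only [Matrix.mul_assoc]
        _ = Uᵀ * (X * X) * U := by rw [hUU']; simp only [Matrix.mul_assoc, Matrix.mul_one, Matrix.one_mul]
        _ = _ := by rw [hsq]; simp only [Matrix.mul_smul, Matrix.smul_mul]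
    have h2 := congrFun (congrFun h1 j) j
    simpa [diagonal_mul_diagonal] using h2
  have hl01 : ∀ j, l j = 0 ∨ l j = c := by
    intro j
    have := hll j
    have h3 : l j * (l j - c) = 0 := by linarith
    rcases mul_eq_zero.1 h3 with h | h
    · exact Or.inl h
    · exact Or.inr (by linarith)
  set J : Finset (Fin N) := univ.filter (fun j => l j = c) with hJ
  have hsuml : ∑ j, l j = c * J.card := by
    have h1 : ∀ j, l j = if l j = c then c else 0 := by
      intro j
      rcases hl01 j with h | h
      · rw [if_neg (by rw [h]; exact hc.ne)]; exact h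
      · rw [if_pos h]; exact h
    rw [Finset.sum_congr rfl (fun j _ => h1 j), ← Finset.sum_filter, Finset.sum_const, nsmul_eq_mul]
    ring
  have htrl : X.trace = ∑ j, l j := by
    rw [hspec, Matrix.trace_mul_comm, ← Matrix.mul_assoc, hUU, Matrix.one_mul, trace_diagonal]
  have hJc : J.card = r := by
    rw [htrl, hsuml] at htr
    have := mul_left_cancel₀ hc.ne' htr
    exact_mod_cast this
  let e : Fin r ≃ J := (Finset.equivFinOfCardEq hJc).symm
  refine ⟨fun i k => Real.sqrt c * U i (e k), ?_, ?_⟩
  · intro i j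
    have h1 : X i j = ∑ k, l k * (U i k * U j k) := by
      conv_lhs => rw [hspec]
      rw [Matrix.mul_apply]
      apply Finset.sum_congr rfl
      intro k _
      rw [mul_diagonal, transpose_apply]
      ring
    rw [h1]
    have h2 : ∑ k, l k * (U i k * U j k) = ∑ k ∈ J, c * (U i k * U j k) := by
      rw [hJ, Finset.sum_filter]
      apply Finset.sum_congr rfl
      intro k _
      rcases hl01 k with h | h
      · rw [if_neg (by rw [h]; exact hc.ne), h, zero_mul]
      · rw [if_pos h, h]
    rw [h2, dotProduct, ← Finset.sum_coe_sort J]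
    rw [← e.sum_comp]
    apply Finset.sum_congr rfl
    intro k _
    have := Real.mul_self_sqrt hc.le
    calc Real.sqrt c * U i (e k) * (Real.sqrt c * U j (e k)) =
        (Real.sqrt c * Real.sqrt c) * (U i (e k) * U j (e k)) := by ring
      _ = _ := by rw [this]
  · ext k k'
    rw [Matrix.sum_apply]
    simp only [vecMulVec_apply, Matrix.smul_apply, smul_eq_mul]
    have h1 : ∑ i, U i (e k) * U i (e k') = (1 : Matrix (Fin N) (Fin N) ℝ) (e k) (e k') := by
      rw [← hUU, Matrix.mul_apply]
      rfl
    have h2 : ∀ i, Real.sqrt c * U i (e k) * (Real.sqrt c * U i (e k')) =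
        c * (U i (e k) * U i (e k')) := by
      intro i
      have := Real.mul_self_sqrt hc.le
      calc _ = (Real.sqrt c * Real.sqrt c) * (U i (e k) * U i (e k')) := by ring
        _ = _ := by rw [this]
    simp_rw [h2]
    rw [← Finset.mul_sum, h1]
    congr 1
    rw [Matrix.one_apply, Matrix.one_apply]
    congr 1
    rw [Subtype.coe_inj, e.apply_eq_iff_eq]

end Pool.Agent.Work.MP_dc1a88_an
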