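import Pool.Agent.Work.MP_dc1a88_an.Elliptope
import Pool.Agent.Work.MP_dc1a88_an.Gram
import Pool.Agent.Work.MP_dc1a88_an.Data

/-!
# One of the two Gram matrices lies in the cut polytope, the other does not
-/

open Matrix Finset

namespace Pool.Agent.Work.MP_dc1a88_an

/-- the real Gram matrix `(5 I + S) / 5` -/
noncomputable def Xr (rows : List ℕ) : Matrix (Fin 26) (Fin 26) ℝ :=
  Matrix.of fun i j => (G rows i j : ℝ) / 5

lemma Xr1_mem : Xr rows1 ∈ cutPolytope 26 := by
  classical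
  let x : Fin 30 → Fin 26 → ℝ := fun k i => (sgnBit (xs1.getD k 0) i : ℝ)
  have hx : ∀ k i, x k i = 1 ∨ x k i = -1 := by
    intro k i
    simp only [x, sgnBit]
    by_cases h : Nat.testBit (xs1.getD k 0) i
    · right; rw [if_pos h]; norm_num
    · left; rw [if_neg h]; norm_num
  have hX : Xr rows1 = ∑ k : Fin 30, (1 / 30 : ℝ) • vecMulVec (x k) (x k) := by
    ext i j
    rw [Matrix.sum_apply]
    simp only [Matrix.smul_apply, vecMulVec_apply, smul_eq_mul, Xr, Matrix.of_apply]
    rw [← Finset.mul_sum]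
    have h := G1_cut i j
    have h' : ∑ k : Fin 30, x k i * x k j = 6 * (G rows1 i j : ℝ) := by
      simp only [x]
      exact_mod_cast h
    rw [h']
    ring
  rw [hX]
  apply (convex_convexHull ℝ _).sum_mem
  · intro k _; norm_num
  · simp
  · intro k _
    exact subset_convexHull _ _ ⟨x k, hx k, rfl⟩

lemma sgnBit_ofBits (y : Fin 13 → Bool) (j : Fin 13) :
    sgnBit (Nat.ofBits y) j = if y j then -1 else 1 := by
  unfold sgnBit
  rw [Nat.testBit_ofBits_lt y j j.isLt]

lemma cs_sum : ∀ j : Fin 13, ∑ k : Fin 13, cs.getD ((j.val + 13 - k.val) % 13) 0 = -6 := by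
  decide +kernel

/-- integer sign vectors in the eigenspace have large inner product with `x0` -/
lemma key_int (x : Fin 26 → ℤ) (hx : ∀ i, x i = 1 ∨ x i = -1)
    (hM : ∀ i, ∑ j, M2 i j * x j = 0) : 53 ≤ (∑ i, x0 i * x i) ^ 2 := by
  classical
  -- equations `R k · x = 0`
  have hR : ∀ k, ∑ j, R k j * x j = 0 := by
    intro k
    have h1 : ∀ j, R k j * x j = ∑ i, W k i * (M2 i j * x j) := by
      intro j
      rw [← W_M2 k j, Finset.sum_mul]
      apply Finset.sum_congr rfl
      intro i _; ring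
    simp_rw [h1]
    rw [Finset.sum_comm]
    apply Finset.sum_eq_zero
    intro i _
    rw [← Finset.mul_sum, hM i, mul_zero]
  set y : Fin 13 → Bool := fun j => decide (x ⟨j.val, by omega⟩ = -1) with hy
  set n := Nat.ofBits y with hn
  have hbit : ∀ j : Fin 13, sgnBit n j = x ⟨j.val, by omega⟩ := by
    intro j
    rw [hn, sgnBit_ofBits]
    simp only [hy, decide_eq_true_eq]
    rcases hx ⟨j.val, by omega⟩ with h | h
    · rw [h]; norm_num
    · rw [h]; norm_num
  have hnlt : n < 8192 := by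
    have := Nat.ofBits_lt_two_pow y
    simpa [hn] using this
  have hTn : ∀ k : Fin 13, T n k = ∑ j : Fin 13, cs.getD ((j.val + 13 - k.val) % 13) 0 *
      x ⟨j.val, by omega⟩ := by
    intro k
    simp only [← hbit, Fin.sum_univ_succ, Finset.univ_eq_empty, Finset.sum_empty, T]
    simp only [List.range, List.range.loop, List.foldl]
    simp
    ring
  -- T n k = 6 x_{13+k}
  have hT : ∀ k : Fin 13, T n k = 6 * x ⟨13 + k.val, by omega⟩ := by
    intro k
    have h1 := hR k
    rw [hTn k]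
    have hsplit : ∑ j : Fin 26, R k j * x j =
        ∑ j : Fin 13, R k ⟨j.val, by omega⟩ * x ⟨j.val, by omega⟩ +
        ∑ j : Fin 13, R k ⟨13 + j.val, by omega⟩ * x ⟨13 + j.val, by omega⟩ := by
      have := Fin.sum_univ_add (a := 13) (b := 13) (fun j : Fin (13 + 13) => R k j * x j)
      exact this
    rw [hsplit] at h1
    have e1 : ∀ j : Fin 13, R k ⟨j.val, by omega⟩ =
        5 * cs.getD ((j.val + 13 - k.val) % 13) 0 := by
      intro j
      simp only [R]
      rw [if_pos j.isLt]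
    have e2 : ∀ j : Fin 13, R k ⟨13 + j.val, by omega⟩ = if j = k then -30 else 0 := by
      intro j
      simp only [R]
      rw [if_neg (by omega)]
      by_cases h : j = k
      · subst h; simp
      · rw [if_neg h, if_neg]
        intro h'
        apply h
        apply Fin.ext
        omega
    simp_rw [e1, e2] at h1
    simp only [ite_mul, zero_mul, Finset.sum_ite_eq', Finset.mem_univ, if_true] at h1
    have e3 : ∑ j : Fin 13, 5 * cs.getD ((j.val + 13 - k.val) % 13) 0 * x ⟨j.val, by omega⟩ =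
        5 * ∑ j : Fin 13, cs.getD ((j.val + 13 - k.val) % 13) 0 * x ⟨j.val, by omega⟩ := by
      rw [Finset.mul_sum]
      apply Finset.sum_congr rfl
      intro j _; ring
    rw [e3] at h1
    omega
  have hsig : sig n = ∑ j : Fin 13, x ⟨j.val, by omega⟩ := by
    simp only [← hbit, Fin.sum_univ_succ, Finset.univ_eq_empty, Finset.sum_empty, sig]
    simp only [List.range, List.range.loop, List.foldl]
    simp
    ring
  -- not bad
  have hnb : bad n = false := by
    have h1 := no_bad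
    rw [List.all_eq_true] at h1
    have h2 := h1 (n / 128) (List.mem_range.2 (by omega))
    rw [List.all_eq_true] at h2
    have h3 := h2 (n % 128) (List.mem_range.2 (Nat.mod_lt _ (by norm_num)))
    rw [Nat.div_add_mod] at h3
    simpa using h3
  have hall : (List.range 13).all (fun k => decide (T n k = 6) || decide (T n k = -6)) = true := by
    rw [List.all_eq_true]
    intro k hk
    have hk' : k < 13 := List.mem_range.1 hk
    have h1 := hT ⟨k, hk'⟩
    simp only at h1
    rcases hx ⟨13 + k, by omega⟩ with h | h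
    · rw [h] at h1; simp [h1]
    · rw [h] at h1; simp [h1]
  have hlarge : 3 < sig n ∨ sig n < -3 := by
    by_contra hcon
    push Not at hcon
    have : bad n = true := by
      unfold bad
      rw [hall]
      simp [hcon.1, hcon.2]
    rw [this] at hnb
    exact absurd hnb (by simp)
  -- total sums
  have hx0 : ∑ i, x0 i * x i = -(∑ j : Fin 13, x ⟨j.val, by omega⟩) +
      ∑ j : Fin 13, x ⟨13 + j.val, by omega⟩ := by
    have h1 := Fin.sum_univ_add (a := 13) (b := 13) (fun i : Fin (13 + 13) => x0 i * x i)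
    have h2 : ∑ i, x0 i * x i = ∑ j : Fin 13, x0 ⟨j.val, by omega⟩ * x ⟨j.val, by omega⟩ +
        ∑ j : Fin 13, x0 ⟨13 + j.val, by omega⟩ * x ⟨13 + j.val, by omega⟩ := h1
    have h3 : ∑ j : Fin 13, x0 ⟨j.val, by omega⟩ * x ⟨j.val, by omega⟩ =
        -(∑ j : Fin 13, x ⟨j.val, by omega⟩) := by
      rw [← Finset.sum_neg_distrib]
      apply Finset.sum_congr rfl
      intro j _
      have h5 : x0 ⟨j.val, by omega⟩ = -1 := if_pos j.isLt
      rw [h5, neg_one_mul]
    have h4 : ∑ j : Fin 13, x0 ⟨13 + j.val, by omega⟩ * x ⟨13 + j.val, by omega⟩ =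
        ∑ j : Fin 13, x ⟨13 + j.val, by omega⟩ := by
      apply Finset.sum_congr rfl
      intro j _
      have h5 : x0 ⟨13 + j.val, by omega⟩ = 1 := if_neg (by simp)
      rw [h5, one_mul]
    rw [h2, h3, h4]
  have htau : ∑ j : Fin 13, x ⟨13 + j.val, by omega⟩ = -(∑ j : Fin 13, x ⟨j.val, by omega⟩) := by
    -- from `∑ T k = 6 τ` 
    have h1 : ∑ k : Fin 13, T n k = 6 * ∑ j : Fin 13, x ⟨13 + j.val, by omega⟩ := by
      rw [Finset.mul_sum]
      exact Finset.sum_congr rfl (fun k _ => hT k)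
    have h2 : ∑ k : Fin 13, T n k = -6 * ∑ j : Fin 13, x ⟨j.val, by omega⟩ := by
      simp_rw [hTn]
      rw [Finset.sum_comm, Finset.mul_sum]
      apply Finset.sum_congr rfl
      intro j _
      rw [← Finset.sum_mul, cs_sum j]
    rw [h2] at h1
    linarith
  rw [hx0, htau, ← hsig]
  rcases hlarge with h | h
  · nlinarith
  · nlinarith

/-- the separating linear functional -/
noncomputable def sepF : Matrix (Fin 26) (Fin 26) ℝ →ₗ[ℝ] ℝ where
  toFun Z := ∑ i, ∑ j, (x0 i : ℝ) * Z i j * (x0 j : ℝ) +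
    53 * ∑ k, ∑ i, ∑ j, (M2 k i : ℝ) * Z i j * (M2 k j : ℝ)
  map_add' Z Z' := by
    simp only [Matrix.add_apply, mul_add, add_mul, Finset.sum_add_distrib]
    ring
  map_smul' c Z := by
    simp only [Matrix.smul_apply, smul_eq_mul, RingHom.id_apply, mul_add, Finset.mul_sum]
    congr 1
    · exact Finset.sum_congr rfl (fun i _ => Finset.sum_congr rfl (fun j _ => by ring))
    · exact Finset.sum_congr rfl (fun k _ => Finset.sum_congr rfl (fun i _ =>
        Finset.sum_congr rfl (fun j _ => by ring)))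

lemma sepF_cut (x : Fin 26 → ℝ) (hx : ∀ i, x i = 1 ∨ x i = -1) :
    53 ≤ sepF (vecMulVec x x) := by
  classical
  -- integer version of x
  have hex : ∀ i, ∃ z : ℤ, (z = 1 ∨ z = -1) ∧ (z : ℝ) = x i := by
    intro i
    rcases hx i with h | h
    · exact ⟨1, Or.inl rfl, by rw [h]; norm_num⟩
    · exact ⟨-1, Or.inr rfl, by rw [h]; norm_num⟩
  choose z hz hzx using hex
  have hquad : ∀ a : Fin 26 → ℤ, ∑ i, ∑ j, (a i : ℝ) * vecMulVec x x i j * (a j : ℝ) =
      (((∑ i, a i * z i) ^ 2 : ℤ) : ℝ) := by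
    intro a
    push_cast
    rw [sq, Finset.sum_mul_sum]
    apply Finset.sum_congr rfl
    intro i _
    apply Finset.sum_congr rfl
    intro j _
    rw [vecMulVec_apply, ← hzx i, ← hzx j]
    ring
  have hval : sepF (vecMulVec x x) =
      (((∑ i, x0 i * z i) ^ 2 + 53 * ∑ k, (∑ i, M2 k i * z i) ^ 2 : ℤ) : ℝ) := by
    change ∑ i, ∑ j, (x0 i : ℝ) * vecMulVec x x i j * (x0 j : ℝ) +
      53 * ∑ k, ∑ i, ∑ j, (M2 k i : ℝ) * vecMulVec x x i j * (M2 k j : ℝ) = _
    rw [hquad x0, Finset.sum_congr rfl (fun k _ => hquad (M2 k))]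
    push_cast
    ring
  rw [hval]
  have hmain : (53 : ℤ) ≤ (∑ i, x0 i * z i) ^ 2 + 53 * ∑ k, (∑ i, M2 k i * z i) ^ 2 := by
    by_cases h0 : ∀ k, ∑ i, M2 k i * z i = 0
    · have := key_int z hz h0
      have h1 : ∑ k, (∑ i, M2 k i * z i) ^ 2 = 0 := by
        apply Finset.sum_eq_zero
        intro k _
        rw [h0 k]; norm_num
      rw [h1]; linarith
    · push Not at h0
      obtain ⟨k, hk⟩ := h0
      have h1 : 1 ≤ (∑ i, M2 k i * z i) ^ 2 := by
        have : 0 < (∑ i, M2 k i * z i) ^ 2 := by positivity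
        omega
      have h2 : (∑ i, M2 k i * z i) ^ 2 ≤ ∑ k, (∑ i, M2 k i * z i) ^ 2 :=
        Finset.single_le_sum (f := fun k => (∑ i, M2 k i * z i) ^ 2)
          (fun k _ => sq_nonneg _) (Finset.mem_univ k)
      have h3 := sq_nonneg (∑ i, x0 i * z i)
      linarith
  exact_mod_cast hmain

lemma sepF_X2 : sepF (Xr rows2) = 52 := by
  have h1 : ∑ i, ∑ j, (x0 i : ℝ) * Xr rows2 i j * (x0 j : ℝ) = 52 := by
    have h := x0_G
    have h' : ∑ i, ∑ j, (x0 i : ℝ) * (G rows2 i j : ℝ) * (x0 j : ℝ) = 260 := by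
      exact_mod_cast h
    have h2 : ∑ i, ∑ j, (x0 i : ℝ) * Xr rows2 i j * (x0 j : ℝ) =
        (1 / 5) * ∑ i, ∑ j, (x0 i : ℝ) * (G rows2 i j : ℝ) * (x0 j : ℝ) := by
      rw [Finset.mul_sum]
      apply Finset.sum_congr rfl
      intro i _
      rw [Finset.mul_sum]
      apply Finset.sum_congr rfl
      intro j _
      simp only [Xr, Matrix.of_apply]
      ring
    rw [h2, h']; norm_num
  have h2 : ∑ k, ∑ i, ∑ j, (M2 k i : ℝ) * Xr rows2 i j * (M2 k j : ℝ) = 0 := by
    apply Finset.sum_eq_zero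
    intro k _
    rw [Finset.sum_comm]
    apply Finset.sum_eq_zero
    intro j _
    have h3 : ∑ i, (M2 k i : ℝ) * (G rows2 i j : ℝ) = 0 := by
      exact_mod_cast M2_G k j
    have h4 : ∑ i, (M2 k i : ℝ) * Xr rows2 i j * (M2 k j : ℝ) =
        (∑ i, (M2 k i : ℝ) * (G rows2 i j : ℝ)) * ((M2 k j : ℝ) / 5) := by
      rw [Finset.sum_mul]
      apply Finset.sum_congr rfl
      intro i _
      simp only [Xr, Matrix.of_apply]
      ring
    rw [h4, h3, zero_mul]
  change ∑ i, ∑ j, (x0 i : ℝ) * Xr rows2 i j * (x0 j : ℝ) +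
      53 * ∑ k, ∑ i, ∑ j, (M2 k i : ℝ) * Xr rows2 i j * (M2 k j : ℝ) = 52
  rw [h1, h2]; norm_num

lemma Xr2_not_mem : Xr rows2 ∉ cutPolytope 26 := by
  intro h
  have hsub : cutPolytope 26 ⊆ {Z | 53 ≤ sepF Z} := by
    apply convexHull_min
    · rintro _ ⟨x, hx, rfl⟩
      exact sepF_cut x hx
    · exact convex_halfSpace_ge sepF.isLinear 53
  have h1 : (53 : ℝ) ≤ sepF (Xr rows2) := hsub h
  rw [sepF_X2] at h1
  norm_num at h1

/-- ETFs with prescribed Gram matrices `(5 I + S)/5`. -/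
lemma exists_etf (rows : List ℕ) (hs : ∀ i j, G rows i j = G rows j i)
    (hd : ∀ i, G rows i i = 5) (ho : ∀ i j, i ≠ j → G rows i j = 1 ∨ G rows i j = -1)
    (hq : ∀ i j, ∑ k, G rows i k * G rows k j = 10 * G rows i j) :
    ∃ v : Fin 26 → Fin 13 → ℝ, IsRealETF v ∧ gram v = Xr rows := by
  classical
  have hH : (Xr rows).IsHermitian := by
    ext i j
    simp only [conjTranspose_apply, star_trivial, Xr, Matrix.of_apply]
    rw [hs j i]
  have hsq : Xr rows * Xr rows = (2 : ℝ) • Xr rows := by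
    ext i j
    rw [Matrix.mul_apply, Matrix.smul_apply]
    simp only [Xr, Matrix.of_apply, smul_eq_mul]
    have h := hq i j
    have h' : ∑ k, (G rows i k : ℝ) * (G rows k j : ℝ) = 10 * (G rows i j : ℝ) := by
      exact_mod_cast h
    have h2 : ∑ k, (G rows i k : ℝ) / 5 * ((G rows k j : ℝ) / 5) =
        (1 / 25) * ∑ k, (G rows i k : ℝ) * (G rows k j : ℝ) := by
      rw [Finset.mul_sum]
      exact Finset.sum_congr rfl (fun k _ => by ring)
    rw [h2, h']; ring
  have htr : (Xr rows).trace = 2 * ((13 : ℕ) : ℝ) := by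
    simp only [Matrix.trace, Matrix.diag_apply, Xr, Matrix.of_apply, hd]
    simp
    norm_num
  obtain ⟨v, hv, ht⟩ := exists_frame (Xr rows) hH 2 (by norm_num) hsq htr
  refine ⟨v, ⟨?_, ?_, ?_⟩, ?_⟩
  · intro i
    rw [hv i i]
    simp [Xr, hd]
  · rw [ht]
    norm_num
  · refine ⟨1 / 5, by norm_num, by norm_num, ?_⟩
    intro i j hij
    rw [hv i j]
    simp only [Xr, Matrix.of_apply]
    rcases ho i j hij with h | h
    · rw [h]; norm_num
    · rw [h]; norm_num [abs_of_neg]
  · ext i j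
    simp only [gram, Matrix.of_apply]
    exact hv i j

lemma dStar_eq_top {N : ℕ} {X : Matrix (Fin N) (Fin N) ℝ} (h : X ∈ cutPolytope N) :
    dStar X = ⊤ := by
  unfold dStar
  rw [iSup_eq_top]
  intro b hb
  obtain ⟨n, rfl⟩ := ENat.ne_top_iff_exists.1 hb.ne
  have hmem : 0 < 2 * (n + 1) ∧ Even (2 * (n + 1)) ∧ X ∈ genElliptope N (2 * (n + 1)) :=
    ⟨by omega, even_two_mul _, cutPolytope_subset (by omega) h⟩
  refine ⟨⟨2 * (n + 1), hmem⟩, ?_⟩
  change (n : ℕ∞) < ((2 * (n + 1) : ℕ) : ℕ∞)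
  exact_mod_cast (by omega : n < 2 * (n + 1))

lemma dStar_lt_top {N : ℕ} (hN : 0 < N) {X : Matrix (Fin N) (Fin N) ℝ} (h : X ∉ cutPolytope N) :
    dStar X < ⊤ := by
  have : dStar X ≤ ((2 * N : ℕ) : ℕ∞) := by
    unfold dStar
    apply iSup_le
    rintro ⟨d, hd0, hd1, hd2⟩
    have hlt : d / 2 < N := by
      by_contra hcon
      push Not at hcon
      exact h (genElliptope_subset hN hcon hd2)
    change ((d : ℕ) : ℕ∞) ≤ _
    exact_mod_cast (by omega : d ≤ 2 * N)
  exact lt_of_le_of_lt this (ENat.natCast_lt_top _)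

end Pool.Agent.Work.MP_dc1a88_an
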