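import Mathlib

/-!
# Real equiangular tight frames and generalized elliptopes: definitions
-/

open Matrix

namespace Pool.Agent.Work.MP_dc1a88_an

/-- The vectors `v 0, …, v (N-1)` of `ℝ^r` form a real equiangular tight frame. -/
structure IsRealETF {N r : ℕ} (v : Fin N → Fin r → ℝ) : Prop where
  unit : ∀ i, v i ⬝ᵥ v i = 1
  tight : ∑ i, vecMulVec (v i) (v i) = ((N : ℝ) / r) • (1 : Matrix (Fin r) (Fin r) ℝ)
  equiangular : ∃ α : ℝ, 0 ≤ α ∧ α ≤ 1 ∧ ∀ i j, i ≠ j → |v i ⬝ᵥ v j| = α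

/-- The Gram matrix of a family of vectors. -/
def gram {N r : ℕ} (v : Fin N → Fin r → ℝ) : Matrix (Fin N) (Fin N) ℝ :=
  Matrix.of fun i j => v i ⬝ᵥ v j

/-- The cut polytope: convex hull of the matrices `x xᵀ`, `x ∈ {±1}^N`. -/
def cutPolytope (N : ℕ) : Set (Matrix (Fin N) (Fin N) ℝ) :=
  convexHull ℝ {M | ∃ x : Fin N → ℝ, (∀ i, x i = 1 ∨ x i = -1) ∧ M = vecMulVec x x}

/-- The number of times the element `a` of `[N]` appears in the tuple `i`. -/
def mult {N k : ℕ} (i : Fin k → Fin N) (a : Fin N) : ℕ :=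
  (Finset.univ.filter (fun s => i s = a)).card

/-- The set of elements of `[N]` which appear an odd number of times in the concatenation of the
tuples `i` and `j`. -/
def oddSet {N k : ℕ} (i j : Fin k → Fin N) : Finset (Fin N) :=
  Finset.univ.filter (fun a => Odd (mult i a + mult j a))

/-- The tuple `(1, …, 1, a)` of length `k` (the first element of `[N]` is `0 : Fin N`). -/
def lastTuple {N : ℕ} (k : ℕ) (a : Fin N) : Fin k → Fin N :=
  fun s => if s.val + 1 = k then a else ⟨0, Nat.lt_of_le_of_lt (Nat.zero_le _) a.isLt⟩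

/-- The degree-`d` generalized elliptope (`d` a positive even integer): symmetric matrices `X`
for which there is a symmetric positive semidefinite `Y`, indexed by `[N]^{d/2}`, whose entries
depend only on the odd set of the concatenation, are `1` if the odd set is empty, and which
extends `X`. -/
def genElliptope (N d : ℕ) : Set (Matrix (Fin N) (Fin N) ℝ) :=
  {X | X.IsSymm ∧ ∃ Y : Matrix (Fin (d / 2) → Fin N) (Fin (d / 2) → Fin N) ℝ,
    (∀ i j, oddSet i j = ∅ → Y i j = 1) ∧
    (∀ i j i' j', oddSet i j = oddSet i' j' → Y i j = Y i' j') ∧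
    (∀ a b, Y (lastTuple (d / 2) a) (lastTuple (d / 2) b) = X a b) ∧
    Y.PosSemidef}

/-- `d*(X) = sup {d even : X ∈ E_d^N}`, an element of `ℕ ∪ {∞}`. -/
noncomputable def dStar {N : ℕ} (X : Matrix (Fin N) (Fin N) ℝ) : ℕ∞ :=
  ⨆ d : {d : ℕ // 0 < d ∧ Even d ∧ X ∈ genElliptope N d}, ((d : ℕ) : ℕ∞)

end Pool.Agent.Work.MP_dc1a88_an
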