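import Pool.Agent.Work.MP_dc1a88_an.Defs

/-!
# The cut polytope is contained in all elliptopes, and equals those of large degree
-/

open Matrix Finset

namespace Pool.Agent.Work.MP_dc1a88_an

variable {N k : ℕ}

/-- product of the coordinates along a tuple -/
def chi (i : Fin k → Fin N) (x : Fin N → ℝ) : ℝ := ∏ s, x (i s)

lemma chi_eq (i : Fin k → Fin N) (x : Fin N → ℝ) : chi i x = ∏ a, x a ^ mult i a := by
  classical
  unfold chi mult
  rw [← Finset.prod_fiberwise_of_maps_to (s := Finset.univ) (t := Finset.univ) (g := i)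
    (fun _ _ => Finset.mem_univ _)]
  apply Finset.prod_congr rfl
  intro a _
  rw [Finset.prod_congr rfl (g := fun _ => x a)]
  · rw [Finset.prod_const]
  · intro s hs
    rw [(Finset.mem_filter.1 hs).2]

lemma chi_mul_chi (i j : Fin k → Fin N) (x : Fin N → ℝ) (hx : ∀ a, x a = 1 ∨ x a = -1) :
    chi i x * chi j x = ∏ a ∈ oddSet i j, x a := by
  classical
  rw [chi_eq, chi_eq, ← Finset.prod_mul_distrib]
  have h1 : ∀ a, x a ^ mult i a * x a ^ mult j a =
      if a ∈ oddSet i j then x a else 1 := by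
    intro a
    rw [← pow_add]
    have hsq : x a ^ 2 = 1 := by rcases hx a with h | h <;> rw [h] <;> norm_num
    by_cases h : Odd (mult i a + mult j a)
    · have hm : a ∈ oddSet i j := by simp [oddSet, h]
      rw [if_pos hm]
      obtain ⟨c, hc⟩ := h
      rw [hc, pow_add, pow_mul, hsq]; simp
    · have hm : a ∉ oddSet i j := by simp only [oddSet, mem_filter, mem_univ, true_and]; exact h
      rw [if_neg hm]
      obtain ⟨c, hc⟩ := (Nat.not_odd_iff_even.1 h)
      rw [hc, ← two_mul, pow_mul, hsq]; simp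
  rw [Finset.prod_congr rfl (fun a _ => h1 a), Finset.prod_ite_mem]
  simp

lemma chi_lastTuple (hk : 0 < k) (a b : Fin N) (x : Fin N → ℝ) (hx : ∀ a, x a = 1 ∨ x a = -1) :
    chi (lastTuple k a) x * chi (lastTuple k b) x = x a * x b := by
  obtain ⟨k, rfl⟩ : ∃ k', k = k' + 1 := ⟨k - 1, by omega⟩
  have hval : ∀ c : Fin N, chi (lastTuple (k + 1) c) x =
      x ⟨0, Nat.lt_of_le_of_lt (Nat.zero_le _) a.isLt⟩ ^ k * x c := by
    intro c
    unfold chi
    rw [Fin.prod_univ_castSucc]
    congr 1
    · rw [Finset.prod_congr rfl (g := fun _ => x ⟨0, Nat.lt_of_le_of_lt (Nat.zero_le _) a.isLt⟩)]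
      · simp
      · intro s _
        have : ¬ ((Fin.castSucc s).val + 1 = k + 1) := by
          have := s.isLt
          simp
          omega
        simp only [lastTuple, if_neg this]
    · simp [lastTuple]
  rw [hval, hval]
  have hsq : x ⟨0, Nat.lt_of_le_of_lt (Nat.zero_le _) a.isLt⟩ ^ 2 = 1 := by
    rcases hx ⟨0, Nat.lt_of_le_of_lt (Nat.zero_le _) a.isLt⟩ with h | h <;> rw [h] <;> norm_num
  have : (x ⟨0, Nat.lt_of_le_of_lt (Nat.zero_le _) a.isLt⟩ ^ k) *
      (x ⟨0, Nat.lt_of_le_of_lt (Nat.zero_le _) a.isLt⟩ ^ k) = 1 := by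
    rw [← pow_add, ← two_mul, pow_mul, hsq, one_pow]
  calc _ = ((x ⟨0, Nat.lt_of_le_of_lt (Nat.zero_le _) a.isLt⟩ ^ k) *
      (x ⟨0, Nat.lt_of_le_of_lt (Nat.zero_le _) a.isLt⟩ ^ k)) * (x a * x b) := by ring
    _ = _ := by rw [this, one_mul]

/-- The cut polytope is contained in every generalized elliptope. -/
theorem cutPolytope_subset {d : ℕ} (hd : 0 < d / 2) : cutPolytope N ⊆ genElliptope N d := by
  classical
  apply convexHull_min
  · rintro M ⟨x, hx, rfl⟩
    refine ⟨?_, Matrix.of fun i j => chi i x * chi j x, ?_, ?_, ?_, ?_⟩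
    · ext i j
      simp [vecMulVec_apply, mul_comm]
    · intro i j h
      simp only [of_apply]
      rw [chi_mul_chi i j x hx, h]; simp
    · intro i j i' j' h
      simp only [of_apply]
      rw [chi_mul_chi i j x hx, chi_mul_chi i' j' x hx, h]
    · intro a b
      simp only [of_apply]
      rw [chi_lastTuple hd a b x hx, vecMulVec_apply]
    · have := Matrix.posSemidef_vecMulVec_self_star (R := ℝ) (fun i : Fin (d / 2) → Fin N => chi i x)
      convert this using 1
      ext i j
      simp [vecMulVec_apply]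
  · intro X hX Z hZ a b ha hb hab
    obtain ⟨hXs, Y, h1, h2, h3, h4⟩ := hX
    obtain ⟨hZs, Y', h1', h2', h3', h4'⟩ := hZ
    refine ⟨?_, a • Y + b • Y', ?_, ?_, ?_, ?_⟩
    · exact (hXs.smul a).add (hZs.smul b)
    · intro i j h
      simp only [Matrix.add_apply, Matrix.smul_apply, smul_eq_mul]
      rw [h1 i j h, h1' i j h]; linarith
    · intro i j i' j' h
      simp only [Matrix.add_apply, Matrix.smul_apply, smul_eq_mul]
      rw [h2 i j i' j' h, h2' i j i' j' h]
    · intro p q
      simp only [Matrix.add_apply, Matrix.smul_apply, smul_eq_mul]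
      rw [h3, h3']
    · exact (h4.smul ha).add (h4'.smul hb)

/-! ### Large degree -/

/-- parity vector of a tuple -/
def par (i : Fin k → Fin N) (a : Fin N) : ZMod 2 := (mult i a : ZMod 2)

lemma mult_cons (b : Fin N) (i : Fin k → Fin N) (a : Fin N) :
    mult (Fin.cons b i) a = (if b = a then 1 else 0) + mult i a := by
  classical
  unfold mult
  rw [Finset.card_filter, Finset.card_filter, Fin.sum_univ_succ]
  simp

/-- Existence of a tuple with prescribed odd part. -/
lemma exists_tuple (N : ℕ) (hN : 0 < N) : ∀ (k : ℕ) (A : Finset (Fin N)), A.card ≤ k →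
    A.card % 2 = k % 2 → ∃ i : Fin k → Fin N, ∀ a, Odd (mult i a) ↔ a ∈ A := by
  classical
  intro k
  induction k with
  | zero =>
    intro A hA _
    have : A = ∅ := Finset.card_eq_zero.1 (Nat.le_zero.1 hA)
    subst this
    refine ⟨Fin.elim0, fun a => ?_⟩
    simp [mult]
  | succ k ih =>
    intro A hA hpar
    rcases A.eq_empty_or_nonempty with h | ⟨a, ha⟩
    · subst h
      simp only [card_empty] at hpar
      have hk : 0 < k := by
        rcases Nat.eq_zero_or_pos k with h | h
        · subst h; simp at hpar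
        · exact h
      obtain ⟨i, hi⟩ := ih {⟨0, hN⟩} (by simp; omega) (by simp; omega)
      refine ⟨Fin.cons ⟨0, hN⟩ i, fun b => ?_⟩
      rw [mult_cons]
      have hb := hi b
      by_cases h : (⟨0, hN⟩ : Fin N) = b
      · subst h
        simp only [mem_singleton, iff_true] at hb
        simp only [if_true, notMem_empty, iff_false, Nat.not_odd_iff_even]
        rw [add_comm]; exact hb.add_one
      · rw [if_neg h, zero_add, hb]
        simp [Ne.symm h]
    · have hcard : (A.erase a).card + 1 = A.card := Finset.card_erase_add_one ha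
      obtain ⟨i, hi⟩ := ih (A.erase a) (by omega) (by omega)
      refine ⟨Fin.cons a i, fun b => ?_⟩
      rw [mult_cons]
      have hb := hi b
      by_cases h : a = b
      · subst h
        simp only [mem_erase, ne_eq, not_true_eq_false, false_and, iff_false,
          Nat.not_odd_iff_even] at hb
        simp only [if_true, ha, iff_true]
        rw [add_comm]; exact hb.add_one
      · rw [if_neg h, zero_add, hb]
        simp [Ne.symm h]

/-- sign vector of a Boolean vector -/
def sv (ε : Fin N → Bool) (a : Fin N) : ℝ := if ε a then 1 else -1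

lemma sv_pm (ε : Fin N → Bool) (a : Fin N) : sv ε a = 1 ∨ sv ε a = -1 := by
  unfold sv; by_cases h : ε a <;> simp [h]

lemma sum_prod_sv (A : Finset (Fin N)) :
    ∑ ε : Fin N → Bool, ∏ a ∈ A, sv ε a = if A = ∅ then (2 : ℝ) ^ N else 0 := by
  classical
  have h1 : ∀ ε : Fin N → Bool, ∏ a ∈ A, sv ε a =
      ∏ a, (if a ∈ A then (if ε a then (1 : ℝ) else -1) else 1) := by
    intro ε
    rw [Finset.prod_ite_mem]
    simp [sv]
  simp_rw [h1]
  have h2 := Finset.prod_univ_sum (fun _ : Fin N => (Finset.univ : Finset Bool))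
    (fun a b => if a ∈ A then (if b then (1 : ℝ) else -1) else 1)
  rw [Fintype.piFinset_univ] at h2
  rw [← h2]
  by_cases hA : A = ∅
  · subst hA
    simp
  · rw [if_neg hA]
    obtain ⟨a, ha⟩ := Finset.nonempty_iff_ne_empty.2 hA
    apply Finset.prod_eq_zero (Finset.mem_univ a)
    simp [ha]

/-- symmetric difference criterion -/
lemma oddSet_eq_symmDiff {i j : Fin k → Fin N} {A B : Finset (Fin N)}
    (hi : ∀ a, Odd (mult i a) ↔ a ∈ A) (hj : ∀ a, Odd (mult j a) ↔ a ∈ B) :
    oddSet i j = symmDiff A B := by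
  classical
  ext a
  simp only [oddSet, mem_filter, mem_univ, true_and, Finset.mem_symmDiff, Nat.odd_add]
  rw [← Nat.not_odd_iff_even, hi, hj]
  tauto

lemma card_symmDiff_singleton (A : Finset (Fin N)) (a : Fin N) :
    (symmDiff A {a}).card % 2 = (A.card + 1) % 2 := by
  classical
  by_cases h : a ∈ A
  · have : symmDiff A {a} = A.erase a := by
      ext b
      simp only [Finset.mem_symmDiff, mem_singleton, mem_erase]
      constructor
      · rintro (⟨h1, h2⟩ | ⟨h1, h2⟩)
        · exact ⟨h2, h1⟩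
        · subst h1; exact absurd h h2
      · rintro ⟨h1, h2⟩; exact Or.inl ⟨h2, h1⟩
    rw [this]
    have := Finset.card_erase_add_one h
    omega
  · have : symmDiff A {a} = insert a A := by
      ext b
      simp only [Finset.mem_symmDiff, mem_singleton, mem_insert]
      constructor
      · rintro (⟨h1, h2⟩ | ⟨h1, h2⟩)
        · exact Or.inr h1
        · exact Or.inl h1
      · rintro (h1 | h1)
        · subst h1; exact Or.inr ⟨rfl, h⟩
        · refine Or.inl ⟨h1, ?_⟩
          rintro rfl; exact h h1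
    rw [this, Finset.card_insert_of_notMem h]

lemma prod_symmDiff (A B : Finset (Fin N)) (x : Fin N → ℝ) (hx : ∀ a, x a = 1 ∨ x a = -1) :
    (∏ a ∈ A, x a) * (∏ a ∈ B, x a) = ∏ a ∈ symmDiff A B, x a := by
  classical
  have h : ∀ C : Finset (Fin N), ∏ a ∈ C, x a = ∏ a, (if a ∈ C then x a else 1) := by
    intro C; rw [Finset.prod_ite_mem]; simp
  rw [h A, h B, h (symmDiff A B), ← Finset.prod_mul_distrib]
  apply Finset.prod_congr rfl
  intro a _
  have hsq : x a * x a = 1 := by rcases hx a with h | h <;> rw [h] <;> norm_num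
  by_cases h1 : a ∈ A <;> by_cases h2 : a ∈ B <;> simp [h1, h2, Finset.mem_symmDiff, hsq]

lemma oddSet_lastTuple (hk : 0 < k) (a b : Fin N) :
    oddSet (lastTuple k a) (lastTuple k b) = symmDiff {a} {b} := by
  classical
  obtain ⟨k, rfl⟩ : ∃ k', k = k' + 1 := ⟨k - 1, by omega⟩
  have hm : ∀ c e : Fin N, mult (lastTuple (k + 1) c) e =
      k * (if (⟨0, Nat.lt_of_le_of_lt (Nat.zero_le _) a.isLt⟩ : Fin N) = e then 1 else 0) +
        (if c = e then 1 else 0) := by
    intro c e
    unfold mult
    rw [Finset.card_filter, Fin.sum_univ_castSucc]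
    congr 1
    · rw [Finset.sum_congr rfl (g := fun _ =>
        (if (⟨0, Nat.lt_of_le_of_lt (Nat.zero_le _) a.isLt⟩ : Fin N) = e then 1 else 0))]
      · simp
      · intro s _
        have : ¬ ((Fin.castSucc s).val + 1 = k + 1) := by
          have := s.isLt
          simp
          omega
        simp only [lastTuple, if_neg this]
    · simp [lastTuple]
  ext e
  simp only [oddSet, mem_filter, mem_univ, true_and, hm, Finset.mem_symmDiff, mem_singleton]
  by_cases h1 : a = e <;> by_cases h2 : b = e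
  · simp only [h1, h2, if_true]
    simp only [not_true_eq_false, and_false, or_self, iff_false, Nat.not_odd_iff_even]
    exact ⟨k * (if (⟨0, Nat.lt_of_le_of_lt (Nat.zero_le _) a.isLt⟩ : Fin N) = e then 1 else 0) + 1,
      by ring⟩
  · simp only [h1, h2, if_true, if_false]
    have : Odd (k * (if (⟨0, Nat.lt_of_le_of_lt (Nat.zero_le _) a.isLt⟩ : Fin N) = e then 1 else 0)
      + 1 + (k * (if (⟨0, Nat.lt_of_le_of_lt (Nat.zero_le _) a.isLt⟩ : Fin N) = e then 1 else 0)
      + 0)) :=
      ⟨k * (if (⟨0, Nat.lt_of_le_of_lt (Nat.zero_le _) a.isLt⟩ : Fin N) = e then 1 else 0),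
        by ring⟩
    simp only [this, true_iff]
    left
    exact ⟨trivial, fun h => h2 h.symm⟩
  · simp only [h1, h2, if_true, if_false]
    have : Odd (k * (if (⟨0, Nat.lt_of_le_of_lt (Nat.zero_le _) a.isLt⟩ : Fin N) = e then 1 else 0)
      + 0 + (k * (if (⟨0, Nat.lt_of_le_of_lt (Nat.zero_le _) a.isLt⟩ : Fin N) = e then 1 else 0)
      + 1)) :=
      ⟨k * (if (⟨0, Nat.lt_of_le_of_lt (Nat.zero_le _) a.isLt⟩ : Fin N) = e then 1 else 0),
        by ring⟩
    simp only [this, true_iff]
    right
    exact ⟨trivial, fun h => h1 h.symm⟩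
  · simp only [h1, h2, if_false]
    have : ¬ Odd (k * (if (⟨0, Nat.lt_of_le_of_lt (Nat.zero_le _) a.isLt⟩ : Fin N) = e then 1
      else 0) + 0 + (k * (if (⟨0, Nat.lt_of_le_of_lt (Nat.zero_le _) a.isLt⟩ : Fin N) = e then 1
      else 0) + 0)) := by
      rw [Nat.not_odd_iff_even]
      exact ⟨k * (if (⟨0, Nat.lt_of_le_of_lt (Nat.zero_le _) a.isLt⟩ : Fin N) = e then 1 else 0),
        by ring⟩
    simp only [this, false_iff]
    rintro (⟨h, _⟩ | ⟨h, _⟩)
    · exact h1 h.symm
    · exact h2 h.symm

/-- A full pseudo-moment matrix comes from a point of the cut polytope. -/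
theorem mem_cutPolytope_of_moment (hN : 0 < N) (hd : N ≤ k) (X : Matrix (Fin N) (Fin N) ℝ)
    (Y : Matrix (Fin k → Fin N) (Fin k → Fin N) ℝ)
    (h1 : ∀ i j, oddSet i j = ∅ → Y i j = 1)
    (h2 : ∀ i j i' j', oddSet i j = oddSet i' j' → Y i j = Y i' j')
    (h3 : ∀ a b, Y (lastTuple k a) (lastTuple k b) = X a b)
    (h4 : Y.PosSemidef) : X ∈ cutPolytope N := by
  classical
  have hk0 : 0 < k := lt_of_lt_of_le hN hd
  -- the index set
  let P : Type := {A : Finset (Fin N) // A.card % 2 = k % 2}
  have hex : ∀ A : P, ∃ i : Fin k → Fin N, ∀ a, Odd (mult i a) ↔ a ∈ A.1 := by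
    intro A
    refine exists_tuple N hN k A.1 ?_ A.2
    calc A.1.card ≤ Fintype.card (Fin N) := Finset.card_le_univ A.1
      _ = N := by simp
      _ ≤ k := hd
  choose t ht using hex
  have hPne : 0 < Fintype.card P := by
    rw [Fintype.card_pos_iff]
    rcases Nat.mod_two_eq_zero_or_one k with h | h
    · exact ⟨⟨∅, by simp [h]⟩⟩
    · exact ⟨⟨{⟨0, hN⟩}, by simp [h]⟩⟩
  have hPR : (0 : ℝ) < Fintype.card P := by exact_mod_cast hPne
  -- quadratic form
  let w : (Fin N → Bool) → P → ℝ := fun ε A => ∏ a ∈ A.1, sv ε a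
  let q : (Fin N → Bool) → ℝ := fun ε => ∑ A : P, ∑ B : P, Y (t A) (t B) * (w ε A * w ε B)
  have hq : ∀ ε, 0 ≤ q ε := by
    intro ε
    have h5 := h4.submatrix t
    have h6 := h5.dotProduct_mulVec_nonneg (w ε)
    refine h6.trans (le_of_eq ?_)
    simp only [dotProduct, mulVec, q, Matrix.submatrix_apply, star_trivial, Finset.mul_sum]
    apply Finset.sum_congr rfl
    intro A _
    apply Finset.sum_congr rfl
    intro B _
    ring
  have hsum : ∀ a b : Fin N, ∑ ε, q ε * (sv ε a * sv ε b) =
      2 ^ N * Fintype.card P * X a b := by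
    intro a b
    have e1 : ∀ ε, q ε * (sv ε a * sv ε b) =
        ∑ A : P, ∑ B : P, Y (t A) (t B) *
          ∏ c ∈ symmDiff (symmDiff A.1 B.1) (symmDiff {a} {b}), sv ε c := by
      intro ε
      simp only [q, w, Finset.sum_mul]
      apply Finset.sum_congr rfl
      intro A _
      apply Finset.sum_congr rfl
      intro B _
      rw [← prod_symmDiff _ _ _ (sv_pm ε), ← prod_symmDiff _ _ _ (sv_pm ε),
        ← prod_symmDiff _ _ _ (sv_pm ε), Finset.prod_singleton, Finset.prod_singleton]
      ring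
    simp_rw [e1]
    rw [Finset.sum_comm]
    have e2 : ∀ A : P, ∑ ε : Fin N → Bool, ∑ B : P, Y (t A) (t B) *
        ∏ c ∈ symmDiff (symmDiff A.1 B.1) (symmDiff {a} {b}), sv ε c = 2 ^ N * X a b := by
      intro A
      rw [Finset.sum_comm]
      have hCpar : (symmDiff A.1 (symmDiff {a} {b})).card % 2 = k % 2 := by
        rw [← symmDiff_assoc, card_symmDiff_singleton, Nat.add_mod, card_symmDiff_singleton]
        have := A.2
        omega
      rw [Finset.sum_eq_single (⟨symmDiff A.1 (symmDiff {a} {b}), hCpar⟩ : P)]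
      · rw [← Finset.mul_sum, sum_prod_sv, if_pos (by
          change symmDiff (symmDiff A.1 (symmDiff A.1 (symmDiff {a} {b}))) (symmDiff {a} {b}) = ∅
          rw [symmDiff_symmDiff_cancel_left, symmDiff_self]; rfl)]
        have e3 : oddSet (t A) (t ⟨symmDiff A.1 (symmDiff {a} {b}), hCpar⟩) =
            oddSet (lastTuple k a) (lastTuple k b) := by
          rw [oddSet_eq_symmDiff (ht A) (ht _), oddSet_lastTuple hk0, ← symmDiff_assoc,
            symmDiff_self, bot_symmDiff]
        rw [h2 _ _ _ _ e3, h3]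
        ring
      · intro B _ hB
        rw [← Finset.mul_sum, sum_prod_sv, if_neg, mul_zero]
        intro h
        apply hB
        apply Subtype.ext
        have h7 : symmDiff A.1 B.1 = symmDiff {a} {b} := symmDiff_eq_bot.1 h
        change B.1 = symmDiff A.1 (symmDiff {a} {b})
        rw [← h7, symmDiff_symmDiff_cancel_left]
      · intro h; exact absurd (Finset.mem_univ _) h
    rw [Finset.sum_congr rfl (fun A _ => e2 A)]
    simp only [Finset.sum_const, Finset.card_univ, nsmul_eq_mul]
    ring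
  have hXdiag : X ⟨0, hN⟩ ⟨0, hN⟩ = 1 := by
    rw [← h3, h1]
    rw [oddSet_lastTuple hk0, symmDiff_self]; rfl
  have htot : ∑ ε, q ε = 2 ^ N * Fintype.card P := by
    have := hsum ⟨0, hN⟩ ⟨0, hN⟩
    rw [hXdiag, mul_one] at this
    rw [← this]
    apply Finset.sum_congr rfl
    intro ε _
    rcases sv_pm ε ⟨0, hN⟩ with h | h <;> rw [h] <;> norm_num
  set c : ℝ := 2 ^ N * Fintype.card P with hc
  have hcpos : 0 < c := by positivity
  have hX : X = ∑ ε, (q ε / c) • vecMulVec (sv ε) (sv ε) := by
    ext a b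
    rw [Matrix.sum_apply]
    simp only [Matrix.smul_apply, vecMulVec_apply, smul_eq_mul]
    have e4 : ∀ ε, q ε / c * (sv ε a * sv ε b) = (q ε * (sv ε a * sv ε b)) / c := by
      intro ε; ring
    simp_rw [e4]
    rw [← Finset.sum_div, hsum a b]
    field_simp
  rw [hX]
  apply (convex_convexHull ℝ _).sum_mem
  · intro ε _
    exact div_nonneg (hq ε) hcpos.le
  · rw [← Finset.sum_div, htot]
    exact div_self hcpos.ne'
  · intro ε _
    apply subset_convexHull
    exact ⟨sv ε, sv_pm ε, rfl⟩

/-- A generalized elliptope of degree `d` with `d / 2 ≥ N` is contained in the cut polytope. -/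
theorem genElliptope_subset {d : ℕ} (hN : 0 < N) (hd : N ≤ d / 2) :
    genElliptope N d ⊆ cutPolytope N := by
  rintro X ⟨_, Y, h1, h2, h3, h4⟩
  exact mem_cutPolytope_of_moment hN hd X Y h1 h2 h3 h4

end Pool.Agent.Work.MP_dc1a88_an
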